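import Mathlib
import Pool.Graph.R_seed8.W70.HR.Asm
import Pool.Graph.R_seed8.H387R2.U2

set_option autoImplicit false

/-! Coloured Maynard-Tao with all positions rough, right order of magnitude, fixed shifts in a residue class. -/

open Finset Filter

namespace Pool.Agent.Helper50.AQ

open Pool.Agent.H361R2.PP (BB SI rg P1 HH JJ Wm VV)
open Pool.Agent.W70.HR

/-- all numbers `n + H g i` are free of prime factors `≤ y` -/
def Rough {T K : ℕ} (H : Fin T → Fin K → ℕ) (y : ℝ) (n : ℕ) : Prop :=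
  ∀ g i, ∀ p : ℕ, p.Prime → (p : ℝ) ≤ y → ¬ p ∣ n + H g i

open Classical in
/-- a quarter of the classes contain primes -/
def Hit {T K : ℕ} (H : Fin T → Fin K → ℕ) (n : ℕ) : Prop :=
  T ≤ 4 * ((univ : Finset (Fin T)).filter (fun g => ∃ i, (n + H g i).Prime)).card

/-- counting classes modulo `W` in one class modulo `Q` -/
theorem class_count (Q W' r : ℕ) (hQ : 0 < Q) (hW' : 0 < W') (hc : Nat.Coprime Q W') (S : Finset ℕ)
    (hr : ∀ t ∈ S, (r + t).Coprime Q) :
    ((range (Q * W')).filter (fun b => ∀ t ∈ S, (b + t).Coprime (Q * W'))).card ≤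
      Q * ((range (Q * W')).filter (fun b => b ≡ r [MOD Q] ∧ ∀ t ∈ S, (b + t).Coprime (Q * W'))).card := by
  classical
  set A' := (range W').filter (fun b => ∀ t ∈ S, (b + t).Coprime W') with hA'
  have h1 : ((range (Q * W')).filter (fun b => ∀ t ∈ S, (b + t).Coprime (Q * W'))).card ≤
      (range Q ×ˢ A').card := by
    apply card_le_card_of_injOn (fun b => (b % Q, b % W'))
    · intro b hb
      rw [mem_coe, mem_filter, mem_range] at hb
      rw [mem_coe, mem_product]
      refine ⟨mem_range.2 (Nat.mod_lt _ hQ), ?_⟩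
      rw [hA', mem_filter, mem_range]
      refine ⟨Nat.mod_lt _ hW', fun t ht => ?_⟩
      have h2 : (b + t).Coprime W' := Nat.Coprime.coprime_mul_left_right (hb.2 t ht)
      have h3 : (b % W' + t) ≡ (b + t) [MOD W'] := (Nat.mod_modEq _ _).add_right t
      show Nat.gcd _ _ = 1
      rw [h3.gcd_eq]
      exact h2
    · intro b hb b' hb' h
      rw [mem_coe, mem_filter, mem_range] at hb hb'
      simp only [Prod.mk.injEq] at h
      have h2 : b ≡ b' [MOD Q * W'] := (Nat.modEq_and_modEq_iff_modEq_mul hc).1 ⟨h.1, h.2⟩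
      exact Nat.ModEq.eq_of_lt_of_lt h2 hb.1 hb'.1
  have h2 : A'.card ≤ ((range (Q * W')).filter
      (fun b => b ≡ r [MOD Q] ∧ ∀ t ∈ S, (b + t).Coprime (Q * W'))).card := by
    apply card_le_card_of_injOn (fun b' => ((Nat.chineseRemainder hc r b' : ℕ)) % (Q * W'))
    · intro b' hb'
      rw [mem_coe, hA', mem_filter, mem_range] at hb'
      obtain ⟨h3, h4⟩ := (Nat.chineseRemainder hc r b').2
      have h5 : (Nat.chineseRemainder hc r b' : ℕ) % (Q * W') ≡ r [MOD Q] :=
        ((Nat.mod_modEq _ _).of_dvd (dvd_mul_right _ _)).trans h3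
      have h6 : (Nat.chineseRemainder hc r b' : ℕ) % (Q * W') ≡ b' [MOD W'] :=
        ((Nat.mod_modEq _ _).of_dvd (dvd_mul_left _ _)).trans h4
      rw [mem_coe, mem_filter, mem_range]
      refine ⟨Nat.mod_lt _ (Nat.mul_pos hQ hW'), h5, fun t ht => ?_⟩
      apply Nat.Coprime.mul_right
      · have h7 := h5.add_right t
        show Nat.gcd _ _ = 1
        rw [h7.gcd_eq]
        exact hr t ht
      · have h7 := h6.add_right t
        show Nat.gcd _ _ = 1
        rw [h7.gcd_eq]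
        exact hb'.2 t ht
    · intro b hb b' hb' h
      rw [mem_coe, hA', mem_filter, mem_range] at hb hb'
      have h4 := (Nat.chineseRemainder hc r b).2.2
      have h4' := (Nat.chineseRemainder hc r b').2.2
      have h5 : (Nat.chineseRemainder hc r b : ℕ) ≡ (Nat.chineseRemainder hc r b' : ℕ) [MOD Q * W'] := h
      have h6 : b ≡ b' [MOD W'] := h4.symm.trans ((h5.of_dvd (dvd_mul_left _ _)).trans h4')
      exact Nat.ModEq.eq_of_lt_of_lt h6 hb.1 hb'.1
  rw [card_product, card_range] at h1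
  exact h1.trans (Nat.mul_le_mul_left _ h2)

theorem HH_tendsto : Tendsto (fun X : ℕ => HH X) atTop atTop := by
  have h1 : Tendsto (fun X : ℕ => Real.log (Real.log (X : ℝ)) / 4) atTop atTop :=
    ((Real.tendsto_log_atTop.comp (Real.tendsto_log_atTop.comp tendsto_natCast_atTop_atTop))).atTop_div_const
      (by norm_num)
  exact tendsto_nat_floor_atTop.comp h1

theorem prime_dvd_Wm {p X : ℕ} (hp : p.Prime) (h : p ≤ HH X) : p ∣ Wm X := by
  unfold Wm primorial
  apply dvd_prod_of_mem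
  rw [mem_filter, mem_range]
  exact ⟨by omega, hp⟩

theorem Wm_pos (X : ℕ) : 0 < Wm X := by
  unfold Wm
  exact primorial_pos _

theorem sqf_dvd_Wm {Q X : ℕ} (hQ : Squarefree Q) (h : Q ≤ HH X) : Q ∣ Wm X := by
  have hQ0 : 0 < Q := Nat.pos_of_ne_zero hQ.ne_zero
  rw [← Nat.prod_primeFactors_of_squarefree hQ, Wm, primorial]
  refine prod_dvd_prod_of_subset _ _ _ fun p hp => ?_
  rw [Nat.mem_primeFactors] at hp
  rw [mem_filter, mem_range]
  have := Nat.le_of_dvd hQ0 hp.2.1
  exact ⟨by omega, hp.1⟩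

theorem Wm_sqf (X : ℕ) : Squarefree (Wm X) := by
  unfold Wm primorial
  rw [Nat.squarefree_iff_prime_squarefree]
  intro q hq hqq
  have h1 : ∀ s : Finset ℕ, (∀ p ∈ s, p.Prime) → ¬ q * q ∣ ∏ p ∈ s, p := by
    classical
    intro s
    induction s using Finset.induction_on with
    | empty =>
      intro _ h
      rw [prod_empty] at h
      have := Nat.le_of_dvd one_pos h
      have := hq.two_le
      nlinarith
    | insert a s ha ih =>
      intro hs h
      rw [prod_insert ha] at h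
      have hap := hs a (mem_insert_self _ _)
      by_cases hqa : q = a
      · subst hqa
        have h2 : q ∣ ∏ p ∈ s, p := Nat.dvd_of_mul_dvd_mul_left hq.pos h
        obtain ⟨p, hp, hqp⟩ := (hq.prime.dvd_finset_prod_iff _).1 h2
        have := (Nat.prime_dvd_prime_iff_eq hq (hs p (mem_insert_of_mem hp))).1 hqp
        exact ha (this ▸ hp)
      · have hcop : (q * q).Coprime a := by
          apply Nat.Coprime.mul_left <;> exact (Nat.coprime_primes hq hap).2 hqa
        exact ih (fun p hp => hs p (mem_insert_of_mem hp)) (hcop.dvd_of_dvd_mul_left h)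
  exact h1 _ (fun p hp => (mem_filter.1 hp).2) hqq

theorem JJ_low {δ : ℝ} (hδ : 0 < δ) : ∀ᶠ X : ℕ in atTop, (X : ℝ) ^ (δ / 2) < 2 ^ 2 ^ JJ δ X := by
  have h1 : ∀ᶠ X : ℕ in atTop, (4 : ℝ) ≤ (X : ℝ) ^ δ :=
    ((tendsto_rpow_atTop hδ).comp tendsto_natCast_atTop_atTop).eventually_ge_atTop 4
  filter_upwards [h1, eventually_ge_atTop 1] with X hX hX1
  have hX0 : (0 : ℝ) < X := by exact_mod_cast hX1
  set Y := ⌊(X : ℝ) ^ δ⌋₊ with hY
  have hY4 : 4 ≤ Y := Nat.le_floor (by exact_mod_cast hX)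
  set m := Nat.log 2 Y with hm
  have h2 : Y < 2 ^ (m + 1) := Nat.lt_pow_succ_log_self (by norm_num) _
  have hm0 : m ≠ 0 := by
    rw [hm]
    exact (Nat.log_pos (by norm_num) (by omega)).ne'
  have h3 : m < 2 ^ (JJ δ X + 1) := by
    have : JJ δ X = Nat.log 2 m := rfl
    rw [this]
    exact Nat.lt_pow_succ_log_self (by norm_num) _
  have h4 : Y < (2 ^ 2 ^ JJ δ X) ^ 2 := by
    calc Y < 2 ^ (m + 1) := h2
      _ ≤ 2 ^ (2 ^ (JJ δ X + 1)) := Nat.pow_le_pow_right (by norm_num) h3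
      _ = (2 ^ 2 ^ JJ δ X) ^ 2 := by rw [← pow_mul, pow_succ]
  have h5 : (X : ℝ) ^ δ < ((2 : ℝ) ^ 2 ^ JJ δ X) ^ 2 := by
    have h6 : (X : ℝ) ^ δ < Y + 1 := Nat.lt_floor_add_one _
    have h7 : ((Y + 1 : ℕ) : ℝ) ≤ (((2 ^ 2 ^ JJ δ X) ^ 2 : ℕ) : ℝ) := by exact_mod_cast h4
    push_cast at h7
    linarith
  have h6 : (X : ℝ) ^ δ = ((X : ℝ) ^ (δ / 2)) ^ 2 := by
    rw [← Real.rpow_natCast, ← Real.rpow_mul hX0.le]
    congr 1
    push_cast
    ring
  rw [h6] at h5
  exact lt_of_pow_lt_pow_left₀ 2 (by positivity) h5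

end Pool.Agent.Helper50.AQ
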