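import Mathlib
import Pool.Agent.Helper50.AQ.GR

set_option autoImplicit false

/-! Coloured Maynard-Tao with all positions rough, right order of magnitude, fixed shifts in a residue class. -/

open Finset Filter

namespace Pool.Agent.Helper50.AQ

open Pool.Agent.H361R2.PP (BB SI rg P1 HH JJ Wm VV)
open Pool.Agent.W70.HR
open Pool.Agent.H387R2.Uni (CT CT_en en_inj nu_en nuT)

/-- the singular series of an admissible set is positive -/
theorem CT_pos (S : Finset ℕ) (h : ∀ p : ℕ, p.Prime → ∃ a : ℕ, ∀ s ∈ S, ¬ p ∣ a + s) : 0 < CT S := by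
  classical
  rw [← CT_en]
  apply Pool.Agent.H386R2.HL.singularSeries_pos (en_inj S)
  intro p hp
  rw [nu_en]
  unfold nuT
  obtain ⟨a, ha⟩ := h p hp
  have h1 : S.image (· % p) ⊆ (range p).erase ((p - a % p) % p) := by
    intro c hc
    obtain ⟨s, hs, rfl⟩ := mem_image.1 hc
    rw [mem_erase, mem_range]
    refine ⟨fun h2 => ha s hs ?_, Nat.mod_lt _ hp.pos⟩
    have h3 : s ≡ (p - a % p) % p [MOD p] := by
      show s % p = ((p - a % p) % p) % p
      rw [Nat.mod_mod]; exact h2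
    have h4 : s ≡ p - a % p [MOD p] := h3.trans (Nat.mod_modEq _ _)
    have h5 : a + s ≡ a % p + (p - a % p) [MOD p] := ((Nat.mod_modEq a p).symm).add h4
    have h6 : a % p + (p - a % p) = p := by
      have := Nat.mod_lt a hp.pos
      omega
    rw [h6] at h5
    exact (Nat.modEq_zero_iff_dvd).1 (h5.trans (by simp [Nat.ModEq]))
  refine (card_le_card h1).trans_lt ?_
  rw [card_erase_of_mem (mem_range.2 (Nat.mod_lt _ hp.pos)), card_range]
  have := hp.pos
  omega

open Classical in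
/-- **coloured Maynard-Tao, all positions rough, right order, in a residue class** -/
theorem gr (T : ℕ) (hT : 1 ≤ T) : ∃ K : ℕ, 1 ≤ K ∧ ∀ (H : Fin T → Fin K → ℕ),
    Function.Injective (fun x : Fin T × Fin K => H x.1 x.2) →
    (∀ p : ℕ, p.Prime → ∃ a : ℕ, ∀ g i, ¬ p ∣ a + H g i) → ∀ Q r : ℕ, Squarefree Q →
    (∀ g i, (r + H g i).Coprime Q) → ∃ κ c : ℝ, 0 < κ ∧ 0 < c ∧ ∀ᶠ X : ℕ in atTop,
      c * (X / Real.log X ^ (T * K)) ≤ (((Ioc X (2 * X)).filter (fun n => n ≡ r [MOD Q] ∧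
        Rough H ((X : ℝ) ^ κ) n ∧ Hit H n)).card : ℝ) := by
  obtain ⟨K, hK, hMT⟩ := mt_final T hT
  refine ⟨K, hK, fun H hinj hadm Q r hQs hcop => ?_⟩
  obtain ⟨δ, c₁, hδ, hδ8, hc₁, X₀, hX₀⟩ := hMT 1 0 one_pos
  obtain ⟨c₂, hc₂, hMV⟩ := mv
  obtain ⟨X₁, hX₁⟩ := hMV δ hδ (by linarith)
  obtain ⟨X₂, hX₂⟩ := ctb (T * K) 1 (1 / 2) one_pos (by norm_num)
  have hQ0 : 0 < Q := Nat.pos_of_ne_zero hQs.ne_zero
  set H' : Fin T → Fin K → ℕ := fun g i => H g i + 1 with hH'
  set S : Finset ℕ := univ.image (fun x : Fin T × Fin K => H' x.1 x.2) with hS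
  have hinj' : Function.Injective (fun x : Fin T × Fin K => H' x.1 x.2) := by
    intro x y hxy
    apply hinj
    simp only [hH'] at hxy
    simp only
    omega
  have hScard : S.card = T * K := by
    rw [hS, card_image_of_injective _ hinj', card_univ, Fintype.card_prod, Fintype.card_fin,
      Fintype.card_fin]
  have hmemS : ∀ g i, H' g i ∈ S := fun g i => mem_image.2 ⟨(g, i), mem_univ _, rfl⟩
  have hCT : 0 < CT S := by
    apply CT_pos
    intro p hp
    obtain ⟨a, ha⟩ := hadm p hp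
    refine ⟨a + (p - 1), fun s hs hd => ?_⟩
    obtain ⟨x, -, rfl⟩ := mem_image.1 hs
    have e : a + (p - 1) + H' x.1 x.2 = (a + H x.1 x.2) + p := by
      simp only [hH']
      have := hp.pos
      omega
    rw [e] at hd
    exact ha _ _ ((Nat.dvd_add_left (dvd_refl p)).1 hd)
  set r₀ : ℕ := r + (Q - 1) with hr₀
  have hr₀S : ∀ t ∈ S, (r₀ + t).Coprime Q := by
    intro t ht
    obtain ⟨x, -, rfl⟩ := mem_image.1 ht
    have e : r₀ + H' x.1 x.2 = (r + H x.1 x.2) + Q := by
      simp only [hH', hr₀]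
      omega
    rw [e]
    simpa using hcop x.1 x.2
  obtain ⟨c, hc⟩ : ∃ c : ℝ, c = c₁ * (CT S * (2 / 3)) / Q * (c₂ / δ) ^ (T * K) := ⟨_, rfl⟩
  have hQr : (0 : ℝ) < Q := by exact_mod_cast hQ0
  have hc0 : 0 < c := by rw [hc]; positivity
  obtain ⟨Hm, hHm⟩ : ∃ Hm : ℕ, ∀ s ∈ S, s ≤ Hm := ⟨S.sup id, fun s hs => le_sup (f := id) hs⟩
  refine ⟨δ / 2, c, by positivity, hc0, ?_⟩
  have hlog : ∀ᶠ X : ℕ in atTop, (Hm : ℝ) + 1 ≤ Real.log X :=
    (Real.tendsto_log_atTop.comp tendsto_natCast_atTop_atTop).eventually_ge_atTop _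
  filter_upwards [eventually_ge_atTop X₀, eventually_ge_atTop X₁, eventually_ge_atTop X₂,
    HH_tendsto.eventually_ge_atTop Q, JJ_low hδ, hlog, eventually_ge_atTop 3]
    with X hXX₀ hXX₁ hXX₂ hHQ hJ hXl hX3
  have hX0 : (0 : ℝ) < X := by exact_mod_cast (by omega : 0 < X)
  have hHm0 : (0 : ℝ) ≤ Hm := Nat.cast_nonneg _
  have hL : 0 < Real.log X := by linarith
  have hQW : Q ∣ Wm X := sqf_dvd_Wm hQs hHQ
  obtain ⟨W', hW'⟩ := hQW
  have hW0 := Wm_pos X
  have hW'0 : 0 < W' := by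
    rcases Nat.eq_zero_or_pos W' with h | h
    · rw [hW', h] at hW0; simp at hW0
    · exact h
  have hcopQ : Nat.Coprime Q W' := by
    have := Wm_sqf X
    rw [hW'] at this
    exact Nat.coprime_of_squarefree_mul this
  -- classes
  set B : Finset ℕ := (range (Wm X)).filter (fun b => b ≡ r₀ [MOD Q] ∧ ∀ t ∈ S, (b + t).Coprime (Wm X))
    with hB
  have hcount : (gW X S : ℝ) ≤ Q * B.card := by
    have h1 := class_count Q W' r₀ hQ0 hW'0 hcopQ S hr₀S
    rw [← hW'] at h1
    have h2 : gW X S = ((range (Wm X)).filter (fun b => ∀ t ∈ S, (b + t).Coprime (Wm X))).card := rfl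
    rw [h2, hB]
    exact_mod_cast h1
  have hSb : ∀ a ∈ S, 1 ≤ a ∧ (a : ℝ) ≤ 1 * Real.log X := by
    intro a ha
    have h1 : (a : ℝ) ≤ Hm := by exact_mod_cast hHm a ha
    obtain ⟨x, -, rfl⟩ := mem_image.1 ha
    refine ⟨by simp only [hH']; omega, by linarith⟩
  have hctb := (hX₂ X hXX₂ S hScard hSb).2
  have hmv := hX₁ X hXX₁
  have hbW : ∀ b ∈ B, b < Wm X := fun b hb => mem_range.1 (mem_filter.1 hb).1
  have hMTb : ∀ b ∈ B, c₁ * Om δ X (T * K) ≤ (hits δ X b T K H' : ℝ) := by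
    intro b hb
    obtain ⟨-, -, h⟩ := hX₀ X hXX₀ b (hbW b hb)
    apply h H' _ hinj'
    intro g i
    unfold Bw BB
    rw [mem_filter, mem_Icc]
    obtain ⟨h1, h2⟩ := hSb _ (hmemS g i)
    exact ⟨⟨h1, Nat.le_floor h2⟩, (mem_filter.1 hb).2.2 _ (hmemS g i)⟩
  have hV0 : 0 < VV δ X := by
    have hBex : ∃ b, b < Wm X := ⟨0, hW0⟩
    obtain ⟨b, hb⟩ := hBex
    exact (hX₀ X hXX₀ b hb).1
  -- the sets
  set F : ℕ → Finset ℕ := fun b => (SI X b).filter (fun n =>
    (∀ g i, rg (P1 (HH X) (JJ δ X)) (H' g i) n = 1) ∧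
      T ≤ 4 * ((univ : Finset (Fin T)).filter (fun g => ∃ i, (n + H' g i).Prime)).card) with hF
  have hFc : ∀ b, (hits δ X b T K H' : ℝ) = ((F b).card : ℝ) := fun b => rfl
  have hFm : ∀ b, ∀ n ∈ F b, n ∈ Ico X (2 * X) ∧ n % Wm X = b := by
    intro b n hn
    simp only [hF, mem_filter, SI] at hn
    exact ⟨hn.1.1, hn.1.2⟩
  have hdisj : Set.PairwiseDisjoint (B : Set ℕ) F := by
    intro b _ b' _ hbb'
    show Disjoint (F b) (F b')
    rw [Finset.disjoint_left]
    intro n hn hn'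
    exact hbb' ((hFm b n hn).2.symm.trans (hFm b' n hn').2)
  have hsum : ∑ b ∈ B, ((F b).card : ℝ) ≤ (((Ioc X (2 * X)).filter (fun n => n ≡ r [MOD Q] ∧
        Rough H ((X : ℝ) ^ (δ / 2)) n ∧ Hit H n)).card : ℝ) := by
    have h1 : ∑ b ∈ B, (F b).card = (B.biUnion F).card := (card_biUnion hdisj).symm
    have h2 : (B.biUnion F).card ≤ ((Ioc X (2 * X)).filter (fun n => n ≡ r [MOD Q] ∧
        Rough H ((X : ℝ) ^ (δ / 2)) n ∧ Hit H n)).card := by
      apply card_le_card_of_injOn (fun n => n + 1)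
      · intro n hn
        rw [mem_coe, mem_biUnion] at hn
        obtain ⟨b, hb, hn⟩ := hn
        obtain ⟨hn1, hn2⟩ := hFm b n hn
        simp only [hF, mem_filter] at hn
        obtain ⟨-, hrg, hhit⟩ := hn
        rw [mem_Ico] at hn1
        have hb2 := (mem_filter.1 hb).2
        rw [mem_coe, mem_filter, mem_Ioc]
        refine ⟨⟨(by omega : X < n + 1), (by omega : n + 1 ≤ 2 * X)⟩, ?_, ?_, ?_⟩
        · have h3 : n ≡ b [MOD Wm X] := by
            show n % Wm X = b % Wm X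
            rw [hn2, Nat.mod_eq_of_lt (hbW b hb)]
          have h4 : n ≡ r₀ [MOD Q] := (h3.of_dvd (by rw [hW']; exact dvd_mul_right _ _)).trans hb2.1
          have h5 : n + 1 ≡ r₀ + 1 [MOD Q] := h4.add_right 1
          have e : r₀ + 1 = r + Q := by simp only [hr₀]; omega
          rw [e] at h5
          simpa using h5
        · intro g i p hp hpX hd
          have e : n + 1 + H g i = n + H' g i := by simp only [hH']; ring
          rw [e] at hd
          by_cases hpH : p ≤ HH X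
          · have h3 : p ∣ Wm X := prime_dvd_Wm hp hpH
            have h4 : n ≡ b [MOD Wm X] := by
              show n % Wm X = b % Wm X
              rw [hn2, Nat.mod_eq_of_lt (hbW b hb)]
            have h5 : n + H' g i ≡ b + H' g i [MOD p] := (h4.of_dvd h3).add_right _
            have h6 : p ∣ b + H' g i := (Nat.ModEq.dvd_iff h5 (dvd_refl p)).1 hd
            have h7 := Nat.dvd_gcd h6 h3
            rw [hb2.2 _ (hmemS g i)] at h7
            exact hp.one_lt.ne' (Nat.dvd_one.1 h7)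
          · have h3 : p ∈ P1 (HH X) (JJ δ X) := by
              unfold P1
              rw [mem_filter, mem_range]
              refine ⟨?_, hp, by omega⟩
              have h4 : (p : ℝ) < 2 ^ 2 ^ JJ δ X := lt_of_le_of_lt hpX hJ
              exact_mod_cast h4
            have h4 := hrg g i
            unfold rg at h4
            by_cases h5 : ∀ p ∈ P1 (HH X) (JJ δ X), ¬ p ∣ n + H' g i
            · exact h5 p h3 hd
            · rw [if_neg h5] at h4
              norm_num at h4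
        · unfold Hit
          have e : ∀ g i, n + 1 + H g i = n + H' g i := by
            intro g i
            simp only [hH']; ring
          simp only [e]
          exact hhit
      · intro n _ n' _ h
        simp only at h
        omega
    calc ∑ b ∈ B, ((F b).card : ℝ) = ((∑ b ∈ B, (F b).card : ℕ) : ℝ) := by push_cast; rfl
      _ ≤ _ := by rw [h1]; exact_mod_cast h2
  refine le_trans ?_ hsum
  have hlow : (B.card : ℝ) * (c₁ * Om δ X (T * K)) ≤ ∑ b ∈ B, ((F b).card : ℝ) := by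
    rw [← nsmul_eq_mul, ← sum_const]
    exact sum_le_sum fun b hb => by rw [← hFc b]; exact hMTb b hb
  refine le_trans ?_ hlow
  -- the computation
  have hWr : (0 : ℝ) < Wm X := by exact_mod_cast hW0
  have hφ : (0 : ℝ) < Nat.totient (Wm X) := by exact_mod_cast Nat.totient_pos.2 hW0
  set φ : ℝ := ((Nat.totient (Wm X) : ℕ) : ℝ) with hφd
  set W : ℝ := ((Wm X : ℕ) : ℝ) with hWd
  have hBl : CT S * (2 / 3) / Q * (W * (φ / W) ^ (T * K)) ≤ B.card := by
    have h1 : CT S * (2 / 3) ≤ (gW X S : ℝ) / W * (W / φ) ^ (T * K) := by linarith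
    have h2 : (φ / W) ^ (T * K) * (W / φ) ^ (T * K) = 1 := by
      rw [← mul_pow]
      rw [show φ / W * (W / φ) = 1 by field_simp]
      exact one_pow _
    have h3 : CT S * (2 / 3) * (W * (φ / W) ^ (T * K)) ≤ gW X S := by
      calc CT S * (2 / 3) * (W * (φ / W) ^ (T * K)) ≤
          ((gW X S : ℝ) / W * (W / φ) ^ (T * K)) * (W * (φ / W) ^ (T * K)) :=
            mul_le_mul_of_nonneg_right h1 (by positivity)
        _ = (gW X S : ℝ) * ((φ / W) ^ (T * K) * (W / φ) ^ (T * K)) := by field_simp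
        _ = gW X S := by rw [h2, mul_one]
    rw [div_mul_eq_mul_div, div_le_iff₀ hQr]
    linarith
  have hVl : c₂ / (δ * Real.log X) * (W / φ) ≤ VV δ X := by
    rw [div_mul_div_comm, div_le_iff₀ (by positivity)]
    have h1 : VV δ X * (φ / W) * (δ * Real.log X) * W = VV δ X * (δ * Real.log X * φ) := by
      field_simp
    calc c₂ * W ≤ VV δ X * (φ / W) * (δ * Real.log X) * W := mul_le_mul_of_nonneg_right hmv hWr.le
      _ = _ := h1
  have hOm : X / W * (c₂ / (δ * Real.log X) * (W / φ)) ^ (T * K) ≤ Om δ X (T * K) := by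
    unfold Om
    apply mul_le_mul_of_nonneg_left _ (by positivity)
    exact pow_le_pow_left₀ (by positivity) hVl _
  have hfin : c * (X / Real.log X ^ (T * K)) = (CT S * (2 / 3) / Q * (W * (φ / W) ^ (T * K))) *
      (c₁ * (X / W * (c₂ / (δ * Real.log X) * (W / φ)) ^ (T * K))) := by
    have h2 : (φ / W) ^ (T * K) * (W / φ) ^ (T * K) = 1 := by
      rw [← mul_pow]
      rw [show φ / W * (W / φ) = 1 by field_simp]
      exact one_pow _
    have h3 : (c₂ / (δ * Real.log X) * (W / φ)) ^ (T * K) =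
        (c₂ / δ) ^ (T * K) / Real.log X ^ (T * K) * (W / φ) ^ (T * K) := by
      rw [mul_pow, ← div_pow, div_div]
    rw [h3, hc]
    calc c₁ * (CT S * (2 / 3)) / Q * (c₂ / δ) ^ (T * K) * (X / Real.log X ^ (T * K))
        = c₁ * (CT S * (2 / 3)) / Q * (c₂ / δ) ^ (T * K) * (X / Real.log X ^ (T * K)) * 1 := by ring
      _ = c₁ * (CT S * (2 / 3)) / Q * (c₂ / δ) ^ (T * K) * (X / Real.log X ^ (T * K)) *
          ((φ / W) ^ (T * K) * (W / φ) ^ (T * K)) := by rw [h2]
      _ = _ := by field_simp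
  rw [hfin]
  apply mul_le_mul hBl _ (by positivity) (Nat.cast_nonneg _)
  exact mul_le_mul_of_nonneg_left hOm hc₁.le

end Pool.Agent.Helper50.AQ
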