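import Mathlib
import Pool.Agent.Helper50.AQ.GR2
import Pool.Graph.R_seed8.X34.E.E7

set_option autoImplicit false

/-! Exact sets of primes among the shifts of a coloured system along narrow progressions. -/

open Finset Filter

namespace Pool.Agent.Helper50.AQ

open Pool.Agent.X34.E Pool.Agent.H95R2.BG.LF

/-- exact set of the primes -/
def Exa {T K : ℕ} (H : Fin T → Fin K → ℕ) (Q r : ℕ) (E : Finset (Fin T × Fin K)) (n : ℕ) : Prop :=
  n ≡ r [MOD Q] ∧ ∀ x : Fin T × Fin K, (n + H x.1 x.2).Prime ↔ x ∈ E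

open Classical in
/-- from the right order of magnitude to narrow progressions, for one exact set -/
theorem nar_of_count {T K : ℕ} (hT : 1 ≤ T) (hK : 1 ≤ K) (H : Fin T → Fin K → ℕ)
    (hinj : Function.Injective (fun x : Fin T × Fin K => H x.1 x.2))
    (hadm : ∀ p : ℕ, p.Prime → ∃ a : ℕ, ∀ g i, ¬ p ∣ a + H g i) (Q r : ℕ) (κ c : ℝ)
    (hκ : 0 < κ) (hc : 0 < c) (Good : Finset (Fin T × Fin K) → Prop)
    (hG : ∀ᶠ X : ℕ in atTop, c * (X / Real.log X ^ (T * K)) ≤
      (((Ioc X (2 * X)).filter (fun n => n ≡ r [MOD Q] ∧ Rough H ((X : ℝ) ^ κ) n ∧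
        Good (univ.filter (fun x : Fin T × Fin K => (n + H x.1 x.2).Prime)))).card : ℝ)) :
    ∃ E : Finset (Fin T × Fin K), Good E ∧ Nar (Exa H Q r E) := by
  set e : Fin (T * K) ≃ Fin T × Fin K := finProdFinEquiv.symm with he
  set A : Fin (T * K) → ℕ := fun _ => 1 with hA
  set B : Fin (T * K) → ℕ := fun j => H (e j).1 (e j).2 with hB
  have hTK : 0 < T * K := Nat.mul_pos (by omega) (by omega)
  have hAB : AdmissibleL A B := by
    refine ⟨fun _ => le_rfl, fun i j hij h => hij ?_, fun p hp => ?_⟩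
    · simp only [hA, hB, one_mul] at h
      apply e.injective
      exact (hinj h).symm
    · obtain ⟨a, ha⟩ := hadm p hp
      refine ⟨a, fun i => ?_⟩
      simp only [hA, hB, one_mul]
      exact ha _ _
  set J : ℕ := Fintype.card (Finset (Fin T × Fin K)) with hJ
  have hJ0 : 0 < J := Fintype.card_pos
  have hJr : (0 : ℝ) < J := by exact_mod_cast hJ0
  set c' : ℝ := c / J with hc'
  have hc'0 : 0 < c' := by positivity
  set SE : Finset (Fin T × Fin K) → ℕ → Set ℕ := fun E X =>
    {n | n ≤ 2 * X ∧ Exa H Q r E n ∧ Rough H ((X : ℝ) ^ κ) n} with hSE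
  -- some exact set is frequent
  obtain ⟨E, hE2, hE⟩ : ∃ E : Finset (Fin T × Fin K), Good E ∧ ∃ᶠ X : ℕ in atTop,
      c' * X / Real.log X ^ (T * K) ≤ (Pool.Agent.TH977.PW.N (SE E X) X (3 * X) : ℝ) := by
    by_contra hcon
    push Not at hcon
    have h2 : ∀ᶠ X : ℕ in atTop, ∀ E : Finset (Fin T × Fin K), Good E →
        (Pool.Agent.TH977.PW.N (SE E X) X (3 * X) : ℝ) < c' * X / Real.log X ^ (T * K) := by
      rw [Filter.eventually_all]
      intro E
      by_cases hE : Good E
      · filter_upwards [hcon E hE] with X hX _ using hX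
      · exact Eventually.of_forall fun X h3 => absurd h3 hE
    obtain ⟨X, hX1, hX2, hX3⟩ := (hG.and (h2.and (eventually_ge_atTop 3))).exists
    have hX0 : (0 : ℝ) < X := by exact_mod_cast (by omega : 0 < X)
    have hL : 0 < Real.log X := Real.log_pos (by exact_mod_cast (by omega : 1 < X))
    set G := (Ioc X (2 * X)).filter (fun n => n ≡ r [MOD Q] ∧ Rough H ((X : ℝ) ^ κ) n ∧
        Good (univ.filter (fun x : Fin T × Fin K => (n + H x.1 x.2).Prime))) with hGd
    set En : ℕ → Finset (Fin T × Fin K) := fun n =>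
      univ.filter (fun x : Fin T × Fin K => (n + H x.1 x.2).Prime) with hEn
    have hmaps : ∀ n ∈ G, En n ∈ (univ : Finset (Finset (Fin T × Fin K))).filter Good := by
      intro n hn
      rw [mem_filter]
      exact ⟨mem_univ _, (mem_filter.1 hn).2.2.2⟩
    have hfib : ∀ E ∈ (univ : Finset (Finset (Fin T × Fin K))).filter Good,
        ((G.filter (fun n => En n = E)).card : ℝ) < c' * X / Real.log X ^ (T * K) := by
      intro E hE
      rw [mem_filter] at hE
      refine lt_of_le_of_lt ?_ (hX2 E hE.2)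
      unfold Pool.Agent.TH977.PW.N
      rw [Nat.cast_le]
      apply card_le_card
      intro n hn
      rw [mem_filter, hGd, mem_filter, mem_Ioc] at hn
      obtain ⟨⟨⟨h3, h4⟩, h5, h6, -⟩, h8⟩ := hn
      simp only [mem_filter, mem_Ioc]
      refine ⟨⟨h3, by omega⟩, h4, ⟨h5, fun x => ?_⟩, h6⟩
      rw [← h8, hEn]
      simp
    have h3 := Finset.card_eq_sum_card_fiberwise (s := G)
      (t := (univ : Finset (Finset (Fin T × Fin K))).filter Good) (f := En) hmaps
    have hGpos : 0 < (G.card : ℝ) := lt_of_lt_of_le (by positivity) hX1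
    have hne : ((univ : Finset (Finset (Fin T × Fin K))).filter Good).Nonempty := by
      have hG1 : G.Nonempty := by
        rw [← Finset.card_pos]; exact_mod_cast hGpos
      obtain ⟨n, hn⟩ := hG1
      exact ⟨_, hmaps n hn⟩
    have h4 : (G.card : ℝ) < ∑ _E ∈ (univ : Finset (Finset (Fin T × Fin K))).filter Good,
        c' * X / Real.log X ^ (T * K) := by
      rw [h3]
      push_cast
      exact Finset.sum_lt_sum_of_nonempty hne hfib
    rw [Finset.sum_const, nsmul_eq_mul] at h4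
    have h5 : (((univ : Finset (Finset (Fin T × Fin K))).filter Good).card : ℝ) ≤ J := by
      have h6 : ((univ : Finset (Finset (Fin T × Fin K))).filter Good).card ≤ J :=
        (card_filter_le _ _).trans (le_of_eq card_univ)
      exact_mod_cast h6
    have hq : 0 < c' * X / Real.log X ^ (T * K) := by positivity
    have h6 : (((univ : Finset (Finset (Fin T × Fin K))).filter Good).card : ℝ) *
        (c' * X / Real.log X ^ (T * K)) ≤ J * (c' * X / Real.log X ^ (T * K)) :=
      mul_le_mul_of_nonneg_right h5 hq.le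
    have h7 : (J : ℝ) * (c' * X / Real.log X ^ (T * K)) = c * (X / Real.log X ^ (T * K)) := by
      rw [hc']; field_simp
    linarith
  refine ⟨E, hE2, fun l => ?_⟩
  obtain ⟨C, hC⟩ := narrowing hTK A B hAB κ c' hκ hc'0 l
  refine ⟨C + 1, ?_⟩
  have ht : Tendsto (fun X : ℕ => 3 * X) atTop atTop := by
    apply tendsto_atTop_mono (f := fun X : ℕ => X) _ tendsto_id
    intro X
    show X ≤ 3 * X
    omega
  refine ht.frequently ?_
  refine (hE.and_eventually (hC.and ((log_ev' 3).and (eventually_ge_atTop 3)))).mono ?_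
  rintro X ⟨hX1, hX2, hXl, hX3⟩
  have hX0 : (0 : ℝ) < X := by exact_mod_cast (by omega : 0 < X)
  obtain ⟨d, hd1, hd2, hd3⟩ := hX2 (SE E X) (by
    intro n hn i p hp hpX hd
    simp only [hA, hB, one_mul] at hd
    exact hn.2.2 _ _ p hp hpX hd) hX1
  have hll : Real.log X ≤ Real.log ((3 * X : ℕ) : ℝ) := by
    apply Real.log_le_log hX0
    push_cast
    linarith
  have hL0 : 0 < Real.log X := by linarith
  have hL1 : 1 ≤ Real.log ((3 * X : ℕ) : ℝ) := by linarith
  refine ⟨d, hd1, ?_, ?_⟩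
  · calc (d : ℝ) ≤ Real.log X ^ C := hd2
      _ ≤ Real.log ((3 * X : ℕ) : ℝ) ^ C := pow_le_pow_left₀ hL0.le hll C
      _ ≤ _ := pow_le_pow_right₀ hL1 (by omega)
  · have h1 : ((3 * X : ℕ) : ℝ) / Real.log ((3 * X : ℕ) : ℝ) ^ (C + 1) ≤ X / Real.log X ^ C := by
      rw [div_le_div_iff₀ (by positivity) (by positivity), pow_succ]
      have h2 : Real.log X ^ C ≤ Real.log ((3 * X : ℕ) : ℝ) ^ C := pow_le_pow_left₀ hL0.le hll C
      have h3 : (3 : ℝ) ≤ Real.log ((3 * X : ℕ) : ℝ) := by linarith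
      push_cast at h2 h3 ⊢
      calc 3 * (X : ℝ) * Real.log X ^ C = X * (Real.log X ^ C * 3) := by ring
        _ ≤ X * (Real.log (3 * X) ^ C * Real.log (3 * X)) := by gcongr
    refine h1.trans (hd3.trans ?_)
    rw [Nat.cast_le]
    exact card_mono _ (fun n _ hn t ht => (hn t ht).2.1)

open Classical in
/-- coloured theorem along narrow progressions -/
theorem nar_hit (T : ℕ) (hT : 1 ≤ T) : ∃ K : ℕ, 1 ≤ K ∧ ∀ (H : Fin T → Fin K → ℕ),
    Function.Injective (fun x : Fin T × Fin K => H x.1 x.2) →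
    (∀ p : ℕ, p.Prime → ∃ a : ℕ, ∀ g i, ¬ p ∣ a + H g i) → ∀ Q r : ℕ, Squarefree Q →
    (∀ g i, (r + H g i).Coprime Q) → ∃ E : Finset (Fin T × Fin K),
      T ≤ 4 * (E.image Prod.fst).card ∧ Nar (Exa H Q r E) := by
  obtain ⟨K, hK, h⟩ := gr T hT
  refine ⟨K, hK, fun H hinj hadm Q r hQ hcop => ?_⟩
  obtain ⟨κ, c, hκ, hc, hev⟩ := h H hinj hadm Q r hQ hcop
  refine nar_of_count hT hK H hinj hadm Q r κ c hκ hc
    (fun E => T ≤ 4 * (E.image Prod.fst).card) (hev.mono fun X hX => ?_)
  refine hX.trans ?_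
  rw [Nat.cast_le]
  refine card_mono _ (fun n _ hn => ⟨hn.1, hn.2.1, ?_⟩)
  have h1 := hn.2.2
  unfold Hit at h1
  refine h1.trans (Nat.mul_le_mul_left _ (card_le_card ?_))
  intro g hg
  obtain ⟨i, hi⟩ := (mem_filter.1 hg).2
  exact mem_image.2 ⟨(g, i), mem_filter.2 ⟨mem_univ _, hi⟩, rfl⟩

end Pool.Agent.Helper50.AQ
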