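import Mathlib
import Pool.Graph.R_seed8.Y827.RO.NinE
import Pool.Graph.R_seed8.W432.UB.C1b

set_option autoImplicit false

/-! Gaps between consecutive primes with a fixed neighbourhood, along narrow progressions: a third of the
multiples of an even number. -/

open Finset Filter

namespace Pool.Agent.Helper50.AQB

open Pool.Agent.Y827.RO Pool.Agent.H947R3.GM Pool.Agent.W59.GB Pool.Agent.W25.UB

/-- the primes at distance at most `R` from `n` are exactly the `n + h`, `h ∈ P` -/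
def Nbh (N a R : ℕ) (P : Finset ℤ) (n : ℕ) : Prop :=
  n ≡ a [MOD N] ∧ ∀ m : ℕ, |(m : ℤ) - n| ≤ R → (m.Prime ↔ (m : ℤ) - n ∈ P)

theorem Nbh.anti {N a R R' : ℕ} {P : Finset ℤ} {n : ℕ} (hR : R ≤ R') (h : Nbh N a R' P n) :
    Nbh N a R P n := by
  refine ⟨h.1, fun m hm => h.2 m (hm.trans ?_)⟩
  exact_mod_cast hR

/-- `N * k` is the gap after a prime whose neighbourhood occurs along narrow progressions -/
def GapAP (J N a : ℕ) : Set ℕ := {k | 1 ≤ k ∧ ∃ P : Finset ℤ, P.card ≤ J ∧ 0 ∈ P ∧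
  ((N * k : ℕ) : ℤ) ∈ P ∧ (∀ h ∈ P, h ≤ 0 ∨ ((N * k : ℕ) : ℤ) ≤ h) ∧ ∀ R : ℕ, Nar (Nbh N a R P)}

/-- neighbours of different colours -/
theorem adjacent {T K : ℕ} (H : Fin T → Fin K → ℕ)
    (hinj : Function.Injective (fun x : Fin T × Fin K => H x.1 x.2))
    (E : Finset (Fin T × Fin K)) (hE : 1 < (E.image Prod.fst).card) :
    ∃ x ∈ E, ∃ x' ∈ E, x.1 ≠ x'.1 ∧ H x.1 x.2 < H x'.1 x'.2 ∧
      ∀ y ∈ E, H y.1 y.2 ≤ H x.1 x.2 ∨ H x'.1 x'.2 ≤ H y.1 y.2 := by
  classical
  obtain ⟨g₁, hg₁, g₂, hg₂, h12⟩ := one_lt_card.1 hE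
  obtain ⟨x₁, hx₁, rfl⟩ := mem_image.1 hg₁
  obtain ⟨x₂, hx₂, rfl⟩ := mem_image.1 hg₂
  set C : Finset ((Fin T × Fin K) × (Fin T × Fin K)) := (E ×ˢ E).filter
    (fun z => z.1.1 ≠ z.2.1 ∧ H z.1.1 z.1.2 < H z.2.1 z.2.2) with hC
  have hne : C.Nonempty := by
    rcases lt_trichotomy (H x₁.1 x₁.2) (H x₂.1 x₂.2) with hl | he | hl
    · exact ⟨(x₁, x₂), mem_filter.2 ⟨mem_product.2 ⟨hx₁, hx₂⟩, h12, hl⟩⟩
    · exact absurd (congrArg Prod.fst (hinj he)) h12
    · exact ⟨(x₂, x₁), mem_filter.2 ⟨mem_product.2 ⟨hx₂, hx₁⟩, h12.symm, hl⟩⟩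
  obtain ⟨z, hz, hmin⟩ := exists_min_image C (fun z => H z.2.1 z.2.2 - H z.1.1 z.1.2) hne
  rw [hC, mem_filter, mem_product] at hz
  obtain ⟨⟨hz1, hz2⟩, hz3, hz4⟩ := hz
  refine ⟨z.1, hz1, z.2, hz2, hz3, hz4, fun y hy => ?_⟩
  by_contra hcon
  push Not at hcon
  obtain ⟨h1, h2⟩ := hcon
  by_cases hy1 : y.1 = z.1.1
  · have h3 : y.1 ≠ z.2.1 := by rw [hy1]; exact hz3
    have h4 := hmin (y, z.2) (by
      rw [hC, mem_filter, mem_product]
      exact ⟨⟨hy, hz2⟩, h3, h2⟩)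
    simp only at h4
    omega
  · have h4 := hmin (z.1, y) (by
      rw [hC, mem_filter, mem_product]
      exact ⟨⟨hz1, hy⟩, fun h => hy1 h.symm, h1⟩)
    simp only at h4
    omega

/-- a residue class in which all but the given shifts are blocked -/
theorem block {T K N a : ℕ} (hN : 0 < N) (ha : a.Coprime N)
    (H : Fin T → Fin K → ℕ) (hNH : ∀ g i, N ∣ H g i) (M : ℕ) (hM : ∀ g i, H g i ≤ M) :
    ∃ Q r : ℕ, 0 < Q ∧ N ∣ Q ∧ r ≡ a [MOD N] ∧ (∀ g i, (r + H g i).Coprime Q) ∧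
      ∀ t ≤ M, (∀ g i, H g i ≠ t) → ∃ q, q.Prime ∧ q ∣ Q ∧ q ∣ r + t := by
  classical
  set q : ℕ → ℕ := fun t => Nat.nth Nat.Prime (M + N + t) with hq
  have hqp : ∀ t, (q t).Prime := fun t => Nat.prime_nth_prime _
  have hqM : ∀ t, M + N + t < q t := fun t => by
    have := Nat.add_two_le_nth_prime (M + N + t)
    simp only [hq]; omega
  have hqinj : Function.Injective q := by
    intro s t hst
    have := Nat.nth_injective Nat.infinite_setOfPred_prime hst
    omega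
  set U : Finset ℕ := (range (M + 1)).filter fun t => ∀ g i, H g i ≠ t with hU
  have hpair : Set.Pairwise (U : Set ℕ) (Function.onFun Nat.Coprime q) := by
    intro s _ t _ hst
    exact (Nat.coprime_primes (hqp s) (hqp t)).2 fun h => hst (hqinj h)
  obtain ⟨r₀, hr₀⟩ := Nat.chineseRemainderOfFinset (fun t => q t - t) q U
    (fun t _ => (hqp t).ne_zero) hpair
  set Q₀ : ℕ := ∏ t ∈ U, q t with hQ₀def
  have hQ₀ : 0 < Q₀ := prod_pos fun t _ => (hqp t).pos
  have hcopN : Nat.Coprime Q₀ N := by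
    refine Nat.Coprime.prod_left fun t _ => ?_
    rw [Nat.Prime.coprime_iff_not_dvd (hqp t)]
    intro hd
    have h1 := Nat.le_of_dvd hN hd
    have h2 := hqM t
    omega
  obtain ⟨r, hrQ, hrN⟩ := Nat.chineseRemainder hcopN r₀ a
  have hr' : ∀ t ∈ U, q t ∣ r + t := by
    intro t ht
    have h0 : r ≡ r₀ [MOD q t] := hrQ.of_dvd (dvd_prod_of_mem q ht)
    have h1 := (h0.trans (hr₀ t ht)).add_right t
    have h2 : q t - t + t = q t := by have := hqM t; omega
    rw [h2] at h1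
    exact (Nat.modEq_zero_iff_dvd.1 (h1.trans (by simp [Nat.ModEq])))
  refine ⟨Q₀ * N, r, Nat.mul_pos hQ₀ hN, dvd_mul_left _ _, hrN, ?_, ?_⟩
  · intro g i
    refine Nat.Coprime.mul_right ?_ ?_
    · refine Nat.Coprime.prod_right fun t ht => ?_
      rw [Nat.coprime_comm, Nat.Prime.coprime_iff_not_dvd (hqp t)]
      intro hd
      have h1 := hr' t ht
      have hne : H g i ≠ t := (mem_filter.1 ht).2 g i
      have htM : t ≤ M := by
        have := (mem_filter.1 ht).1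
        rw [mem_range] at this; omega
      have h2 : (q t : ℤ) ∣ (H g i : ℤ) - t := by
        have h3 : (q t : ℤ) ∣ ((r + H g i : ℕ) : ℤ) - ((r + t : ℕ) : ℤ) :=
          dvd_sub (by exact_mod_cast hd) (by exact_mod_cast h1)
        push_cast at h3
        have e : (r : ℤ) + H g i - (r + t) = H g i - t := by ring
        rwa [e] at h3
      have h4 : |(H g i : ℤ) - t| < q t := by
        have := hqM t
        have h5 := hM g i
        rw [abs_lt]
        constructor <;> omega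
      have h6 := Int.eq_zero_of_abs_lt_dvd h2 h4
      omega
    · have h1 : r + H g i ≡ a + 0 [MOD N] :=
        hrN.add ((Nat.modEq_zero_iff_dvd).2 (hNH g i))
      rw [add_zero] at h1
      have h2 := h1.gcd_eq
      unfold Nat.Coprime at ha ⊢
      rw [h2, ha]
  · intro t ht hne
    have htU : t ∈ U := by
      rw [hU, mem_filter, mem_range]; exact ⟨by omega, hne⟩
    exact ⟨q t, hqp t, (dvd_prod_of_mem q htU).mul_right N, hr' t htU⟩

open Classical in
/-- two classes contain the end points -/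
theorem gap_hit : ∃ K : ℕ, 1 ≤ K ∧ ∀ N a : ℕ, 0 < N → a.Coprime N →
    ∀ H : Fin 4 → Fin K → ℕ, AdmN N H →
      ∃ g g' i i', g ≠ g' ∧ H g i < H g' i' ∧ H g' i' - H g i ∈ GapAP (4 * K) N a := by
  obtain ⟨K, hK, h⟩ := bigE 4 1 (by norm_num) (by norm_num)
  refine ⟨K, hK, fun N a hN ha H hH => ?_⟩
  -- the candidates
  set Pc : (Fin 4 × Fin K) × Finset (Fin 4 × Fin K) → Finset ℤ := fun z =>
    z.2.image (fun y => ((N * H y.1 y.2 : ℕ) : ℤ) - (N * H z.1.1 z.1.2 : ℕ)) with hPc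
  -- a distance which decides
  obtain ⟨R₀, hR₀⟩ : ∃ R₀ : ℕ, ∀ z, Nar (Nbh N a R₀ (Pc z)) → ∀ R, Nar (Nbh N a R (Pc z)) := by
    have h1 : ∀ z, ∃ R : ℕ, Nar (Nbh N a R (Pc z)) → ∀ R, Nar (Nbh N a R (Pc z)) := by
      intro z
      by_cases hz : ∀ R, Nar (Nbh N a R (Pc z))
      · exact ⟨0, fun _ => hz⟩
      · push Not at hz
        obtain ⟨R, hR⟩ := hz
        exact ⟨R, fun h => absurd h hR⟩
    choose Rf hRf using h1
    refine ⟨univ.sup Rf, fun z hz => hRf z (Nar.mono hz fun n hn => ?_)⟩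
    exact hn.anti (le_sup (f := Rf) (mem_univ z))
  -- the shifted system
  set s : ℕ := N * (R₀ + 1) with hs
  have hsR : R₀ ≤ s := by
    rw [hs]
    nlinarith
  set H' : Fin 4 → Fin K → ℕ := fun g i => s + N * H g i with hH'
  have hinj : Function.Injective (fun x : Fin 4 × Fin K => H' x.1 x.2) := by
    intro x y hxy
    apply hH.1
    simp only [hH'] at hxy
    exact Nat.eq_of_mul_eq_mul_left hN (Nat.add_left_cancel hxy)
  obtain ⟨M, hM⟩ : ∃ M, ∀ g i, N * H g i ≤ M :=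
    ⟨univ.sup fun x : Fin 4 × Fin K => N * H x.1 x.2, fun g i =>
      le_sup (f := fun x : Fin 4 × Fin K => N * H x.1 x.2) (mem_univ (g, i))⟩
  have hNH : ∀ g i, N ∣ H' g i := fun g i =>
    dvd_add (dvd_mul_right _ _) (dvd_mul_right _ _)
  obtain ⟨Q, r, hQ0, hNQ, hra, hcop, hblock⟩ := block hN ha H' hNH (M + 2 * s)
    (fun g i => by have := hM g i; simp only [hH']; omega)
  have hadm : ∀ p : ℕ, p.Prime → ∃ b : ℤ, ∀ g i,
      ¬ (p : ℤ) ∣ (Q : ℤ) * b + ((r + H' g i : ℕ) : ℤ) := by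
    intro p hp
    by_cases hpQ : p ∣ Q
    · refine ⟨0, fun g i hd => ?_⟩
      rw [mul_zero, zero_add] at hd
      have hd' : p ∣ r + H' g i := by exact_mod_cast hd
      have h1 := Nat.dvd_gcd hd' hpQ
      rw [hcop g i] at h1
      exact hp.one_lt.ne' (Nat.dvd_one.1 h1)
    · have hpN : ¬ p ∣ N := fun h => hpQ (h.trans hNQ)
      obtain ⟨n₀, hn₀⟩ := hH.2 p hp hpN
      have hcop : IsCoprime (Q : ℤ) (p : ℤ) := by
        rw [Nat.isCoprime_iff_coprime]
        exact ((Nat.Prime.coprime_iff_not_dvd hp).2 hpQ).symm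
      obtain ⟨u, v, huv⟩ := hcop
      refine ⟨u * (N * n₀ - r - s), fun g i hd => ?_⟩
      have hd2 : (p : ℤ) ∣ N * (n₀ + H g i) := by
        have e : (N : ℤ) * (n₀ + H g i) =
            ((Q : ℤ) * (u * (N * n₀ - r - s)) + ((r + H' g i : ℕ) : ℤ)) +
            p * (v * (N * n₀ - r - s)) := by
          simp only [hH']
          push_cast
          linear_combination (-(N * n₀ - (r : ℤ) - (s : ℤ))) * huv
        rw [e]
        exact dvd_add hd (dvd_mul_right _ _)
      rcases (Nat.prime_iff_prime_int.1 hp).dvd_or_dvd hd2 with h1 | h1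
      · exact hpN (by exact_mod_cast h1)
      · exact hn₀ g i h1
  obtain ⟨E, hE, hnar⟩ := h (fun g i => ((Q : ℤ), ((r + H' g i : ℕ) : ℤ)))
    (by
      intro x y hxy
      apply hinj
      simp only [Prod.mk.injEq, Nat.cast_inj, true_and] at hxy
      exact Nat.add_left_cancel hxy)
    (fun g i => ⟨by
      show (0 : ℤ) < (Q : ℤ)
      exact_mod_cast hQ0, coprime_of_adm fun p hp => by
        obtain ⟨m, hm⟩ := hadm p hp
        exact ⟨m, hm g i⟩⟩)
    (fun p hp _ => hadm p hp)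
  have hnar' : Nar (fun m => ∀ g i, ((Q : ℤ) * (m : ℤ) + ((r + H' g i : ℕ) : ℤ)).toNat.Prime ↔
      (g, i) ∈ E) := by
    intro l
    obtain ⟨C, hC⟩ := hnar l
    refine ⟨C, hC.mono ?_⟩
    rintro N' ⟨d, h1, h2, h3⟩
    refine ⟨d, h1, h2, h3.trans (le_of_eq ?_)⟩
    unfold cntE
    congr!
  obtain ⟨x, hx, x', hx', hne, hlt, hbet⟩ := adjacent H' hinj E (by omega)
  have hlt' : H x.1 x.2 < H x'.1 x'.2 := by
    simp only [hH'] at hlt
    exact Nat.lt_of_mul_lt_mul_left (Nat.lt_of_add_lt_add_left hlt)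
  refine ⟨x.1, x'.1, x.2, x'.2, hne, hlt', ?_⟩
  have hcast : ((N * (H x'.1 x'.2 - H x.1 x.2) : ℕ) : ℤ) =
      ((N * H x'.1 x'.2 : ℕ) : ℤ) - ((N * H x.1 x.2 : ℕ) : ℤ) := by
    rw [Nat.mul_sub, Nat.cast_sub]
    exact Nat.mul_le_mul_left _ hlt'.le
  refine ⟨by omega, Pc (x, E), ?_, ?_, ?_, ?_, hR₀ _ ?_⟩
  · refine card_image_le.trans ((card_le_univ _).trans (le_of_eq ?_))
    simp
  · simp only [hPc, mem_image]
    exact ⟨x, hx, sub_self _⟩
  · rw [hcast]
    simp only [hPc, mem_image]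
    exact ⟨x', hx', rfl⟩
  · intro z hz
    rw [hcast]
    simp only [hPc, mem_image] at hz
    obtain ⟨y, hy, rfl⟩ := hz
    have := hbet y hy
    simp only [hH'] at this
    push_cast
    rcases this with h1 | h1
    · left
      have : ((N * H y.1 y.2 : ℕ) : ℤ) ≤ ((N * H x.1 x.2 : ℕ) : ℤ) := by
        exact_mod_cast (by omega : N * H y.1 y.2 ≤ N * H x.1 x.2)
      push_cast at this
      linarith
    · right
      have : ((N * H x'.1 x'.2 : ℕ) : ℤ) ≤ ((N * H y.1 y.2 : ℕ) : ℤ) := by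
        exact_mod_cast (by omega : N * H x'.1 x'.2 ≤ N * H y.1 y.2)
      push_cast at this
      linarith
  · apply Nar.affine (q := Q) (b := r + H' x.1 x.2) hQ0
    refine Nar.mono hnar'.ge_two ?_
    rintro n ⟨hn2, hnQ⟩
    have e1 : ∀ g i, ((Q : ℤ) * (n : ℤ) + ((r + H' g i : ℕ) : ℤ)).toNat = Q * n + r + H' g i := by
      intro g i
      have : ((Q : ℤ) * (n : ℤ) + ((r + H' g i : ℕ) : ℤ)) = ((Q * n + r + H' g i : ℕ) : ℤ) := by
        push_cast
        ring
      rw [this, Int.toNat_natCast]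
    have hn3 : ∀ y : Fin 4 × Fin K, (Q * n + r + H' y.1 y.2).Prime ↔ y ∈ E := by
      intro y
      rw [← e1]
      exact hn2 y.1 y.2
    have e2 : Q * n + (r + H' x.1 x.2) = Q * n + r + H' x.1 x.2 := by ring
    rw [e2]
    refine ⟨?_, fun m hm => ?_⟩
    · have h3 : Q * n + r + H' x.1 x.2 ≡ 0 + a + 0 [MOD N] :=
        (((Nat.modEq_zero_iff_dvd).2 (hNQ.mul_right n)).add hra).add
          ((Nat.modEq_zero_iff_dvd).2 (hNH _ _))
      simpa using h3
    · have hmx : H' x.1 x.2 = s + N * H x.1 x.2 := rfl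
      have hMx := hM x.1 x.2
      rw [abs_le] at hm
      obtain ⟨t, rfl⟩ : ∃ t, m = Q * n + r + t := ⟨m - (Q * n + r), by omega⟩
      have htM : t ≤ M + 2 * s := by omega
      by_cases hex : ∃ y : Fin 4 × Fin K, H' y.1 y.2 = t
      · obtain ⟨y, rfl⟩ := hex
        rw [hn3 y]
        simp only [hPc, mem_image]
        constructor
        · intro hy
          refine ⟨y, hy, ?_⟩
          simp only [hH']
          push_cast
          ring
        · rintro ⟨y', hy', he⟩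
          have : y' = y := by
            apply hinj
            simp only [hH'] at he ⊢
            push_cast at he
            have h5 : (N : ℤ) * H y'.1 y'.2 = N * H y.1 y.2 := by linarith
            have h6 : N * H y'.1 y'.2 = N * H y.1 y.2 := by exact_mod_cast h5
            omega
          rwa [← this]
      · push Not at hex
        constructor
        · intro hpr
          exfalso
          obtain ⟨q, hqp, hqQ, hqr⟩ := hblock t htM (fun g i => hex (g, i))
          have h2 : q ∣ Q * n + r + t := by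
            rw [add_assoc]
            exact dvd_add (hqQ.mul_right n) hqr
          have h3 : q = Q * n + r + t := (Nat.prime_dvd_prime_iff_eq hqp hpr).1 h2
          have h4 : q ≤ Q := Nat.le_of_dvd hQ0 hqQ
          have h5 := hqp.pos
          nlinarith
        · intro hmem
          exfalso
          simp only [hPc, mem_image] at hmem
          obtain ⟨y, -, he⟩ := hmem
          apply hex y
          simp only [hH'] at he ⊢
          push_cast at he
          have h5 : (s : ℤ) + N * H y.1 y.2 = t := by linarith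
          exact_mod_cast h5

theorem window : ∃ J : ℕ, ∀ N l a : ℕ, 0 < l → 0 < N → 2 ∣ N → Nat.Coprime a N →
    ∀ ε : ℝ, 0 < ε → ∃ L : ℕ, ∀ M ≥ L, ∀ u : ℕ, (1 / 3 - ε) * (M : ℝ) ≤
        ({k : ℕ | u < k ∧ k ≤ u + M ∧ l * k ∈ GapAP J N a}.ncard : ℝ) := by
  classical
  obtain ⟨K, hK, hH⟩ := gap_hit
  refine ⟨4 * K, fun N l a hl hN hN2 ha ε hε => ?_⟩
  have key : ∃ K' : ℕ, 1 ≤ K' ∧ ∀ H : Fin 4 → Fin K' → ℕ, AdmN (N * l) H →
      ∃ g g' i i', g ≠ g' ∧ H g i < H g' i' ∧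
        H g' i' - H g i ∈ {k : ℕ | l * k ∈ GapAP (4 * K) N a} := by
    refine ⟨K, hK, fun H hadm => ?_⟩
    obtain ⟨hinj, hloc⟩ := hadm
    have hadm' : AdmN N (fun g i => l * H g i) := by
      refine ⟨?_, ?_⟩
      · intro x y hxy
        exact hinj (Nat.eq_of_mul_eq_mul_left hl hxy)
      · intro p hp hpN
        by_cases hpl : p ∣ l
        · refine ⟨1, fun g i h => ?_⟩
          have h3 : (p : ℤ) ∣ ((l * H g i : ℕ) : ℤ) :=
            Int.natCast_dvd_natCast.2 (Dvd.dvd.mul_right hpl _)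
          have h4 : (p : ℤ) ∣ 1 := (Int.dvd_add_left h3).1 h
          have h5 : p ∣ 1 := by exact_mod_cast h4
          exact hp.one_lt.ne' (Nat.dvd_one.1 h5)
        · have hpNl : ¬ p ∣ N * l := fun h => (hp.dvd_mul.1 h).elim hpN hpl
          obtain ⟨n, hn⟩ := hloc p hp hpNl
          refine ⟨l * n, fun g i h => ?_⟩
          have h3 : (l : ℤ) * n + ((l * H g i : ℕ) : ℤ) = l * (n + H g i) := by
            push_cast
            ring
          rw [h3] at h
          rcases (Nat.prime_iff_prime_int.1 hp).dvd_mul.1 h with h4 | h4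
          · exact hpl (by exact_mod_cast h4)
          · exact hn g i h4
    obtain ⟨g, g', i, i', hgg, hlt, hmem⟩ := hH N a hN ha _ hadm'
    refine ⟨g, g', i, i', hgg, Nat.lt_of_mul_lt_mul_left hlt, ?_⟩
    have e : l * (H g' i' - H g i) = l * H g' i' - l * H g i := Nat.mul_sub _ _ _
    rw [Set.mem_ofPred_eq, e]
    exact hmem
  obtain ⟨L, hL⟩ := Pool.Agent.W432.UB.main (N * l) {k : ℕ | l * k ∈ GapAP (4 * K) N a}
    (hN2.mul_right l) key ε hε
  refine ⟨L, fun M hM u => (hL M hM u).trans ?_⟩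
  rw [win_eq, Nat.cast_le, ← Set.ncard_coe_finset]
  refine Set.ncard_le_ncard ?_ ((Set.finite_Ioc u (u + M)).subset ?_)
  · intro d hd
    rw [Finset.coe_filter, Set.mem_ofPred_eq, Finset.mem_Ioc] at hd
    exact ⟨hd.1.1, hd.1.2, hd.2⟩
  · intro d hd
    exact ⟨hd.1, hd.2.1⟩

end Pool.Agent.Helper50.AQB
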