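import Mathlib
import Pool.Agent.Helper50.AQ.PatB
import Pool.Graph.R_pool_sql_team_seeded_5cf16337.K3h84.GP.Gen
import Pool.Graph.R_seed8.TH899.UG.TD6
import Pool.Graph.R_seed8.Y877.Consec

set_option autoImplicit false

/-! Gaps along narrow progressions: arbitrary sets, and a third of the first `H` multiples of every even
number. -/

open Finset Filter

namespace Pool.Agent.Helper50.AQB

open Pool.Agent.Y827.RO (Nar)
open Pool.Agent.W59.GB Pool.Agent.H947R3.GM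
open Pool.Agent.TH899.UG.TD (quad QQ PP emb pig)
open Pool.Agent.TH899.UG (box_pow)
open Pool.Agent.Y877 (exresA)
open Pool.Agent.K3h84.GP (At3 pick adm_pick saving third cliques)

/-- the conclusion of `gap_hit` -/
def GH (J K : ℕ) : Prop := ∀ N a : ℕ, 0 < N → a.Coprime N →
    ∀ H : Fin 4 → Fin K → ℕ, AdmN N H →
      ∃ g g' i i', g ≠ g' ∧ H g i < H g' i' ∧ H g' i' - H g i ∈ GapAP J N a

/-- four sets -/
theorem fourSets {J K : ℕ} (hGH : GH J K) {N a : ℕ} (hN : 0 < N) (h2 : 2 ∣ N)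
    (ha : a.Coprime N) (A : Fin 4 → Finset ℕ) (h3 : At3 N {x | ∃ g, x ∈ A g})
    (hA : ∀ g, 4 * (K * (4 * K).factorial) ≤ (A g).card) :
    ∃ g g', g ≠ g' ∧ ∃ x ∈ A g, ∃ y ∈ A g', x < y ∧ y - x ∈ GapAP J N a := by
  obtain ⟨H, h5, -, h6, h7⟩ := pick K (4 * K).factorial (Nat.factorial_pos _) 4 ∅ A
    (fun g => by rw [card_empty, zero_add]; exact hA g)
  obtain ⟨g, g', i, i', hg, hlt, hd⟩ := hGH N a hN ha H
    (adm_pick K N h2 H h6 h7 (h3.imp_right fun ⟨r, hr⟩ => ⟨r, fun g i => hr _ ⟨g, h5 g i⟩⟩))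
  exact ⟨g, g', hg, H g i, h5 g i, H g' i', h5 g' i', hlt, hd⟩

theorem at3_class (N c : ℕ) (A : Set ℕ) (h : ∀ x ∈ A, x % 3 = c) : At3 N A := by
  refine Or.inr ⟨1 - c, fun x hx hd => ?_⟩
  have h1 := h x hx
  have h2 : (x : ℤ) % 3 = c := by exact_mod_cast h1
  omega

open Classical in
/-- a large class modulo `q` -/
theorem big_class (q : ℕ) (hq : 1 ≤ q) (A : Finset ℕ) :
    ∃ c < q, A.card ≤ q * (A.filter (fun x => x % q = c)).card := by
  by_contra hcon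
  push Not at hcon
  have h1 : A.card = ∑ c ∈ range q, (A.filter (fun x => x % q = c)).card :=
    card_eq_sum_card_fiberwise (fun x _ => mem_coe.2 (mem_range.2 (Nat.mod_lt x hq)))
  have h2 : q * A.card = ∑ c ∈ range q, q * (A.filter (fun x => x % q = c)).card := by
    rw [← mul_sum, ← h1]
  have h3 : ∑ c ∈ range q, q * (A.filter (fun x => x % q = c)).card < ∑ _c ∈ range q, A.card :=
    sum_lt_sum_of_nonempty ⟨0, mem_range.2 hq⟩ (fun c hc => hcon c (mem_range.1 hc))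
  rw [sum_const, card_range, smul_eq_mul] at h3
  omega

open Classical in
/-- large subsets all of whose differences are gaps -/
theorem finite_sets {J K' : ℕ} (hK : 1 ≤ K') {N a : ℕ}
    (h : ∀ A : Fin 4 → Finset ℕ, At3 N {x | ∃ g, x ∈ A g} → (∀ g, K' ≤ (A g).card) →
      ∃ g g', g ≠ g' ∧ ∃ x ∈ A g, ∃ y ∈ A g', x < y ∧ y - x ∈ GapAP J N a) (A : Finset ℕ) :
    ∃ B ⊆ A, A.card ≤ 3 * (B.card + 1) ^ (K' - 1) ∧
      ∀ x ∈ B, ∀ y ∈ B, x < y → y - x ∈ GapAP J N a := by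
  obtain ⟨c, -, hc⟩ := big_class 3 (by norm_num) A
  obtain ⟨B, hB, hBc, hBg⟩ := cliques hK (D := GapAP J N a)
    (A.filter (fun x => x % 3 = c))
    (fun B' hB'A hB' => by
      obtain ⟨g, g', -, x, hx, y, hy, hxy, hd⟩ := h (fun _ => B') (by
        refine (at3_class N c B' (fun x hx => (mem_filter.1 (hB'A (mem_coe.1 hx))).2)).imp_right
          fun ⟨r, hr⟩ => ⟨r, fun x hx => ?_⟩
        obtain ⟨-, hx⟩ := hx
        exact hr x (mem_coe.2 hx)) (fun _ => hB')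
      exact ⟨x, hx, y, hy, hxy, hd⟩)
  exact ⟨B, hB.trans (filter_subset _ _), hc.trans (Nat.mul_le_mul_left _ hBc), hBg⟩

/-- four rows in two classes modulo `3`, with a multiplier -/
theorem rows4c {J K : ℕ} (hGH : GH J K) : ∀ N a : ℕ, 0 < N → 2 ∣ N → a.Coprime N →
    ∀ b c : ℕ, 1 ≤ b → (c = 1 ∨ c = 2) → ∀ (A : Fin 4 → Fin K → ℕ) (r : Fin 4 → ℕ),
    Function.Injective (fun z : Fin 4 × Fin K => A z.1 z.2) →
    (∀ g i, A g i % (4 * K).factorial = r g) → (∀ g i, A g i % 3 = 0 ∨ A g i % 3 = c) →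
    ∃ g g' i i', g ≠ g' ∧ A g i < A g' i' ∧ b * (A g' i' - A g i) ∈ GapAP J N a := by
  classical
  intro N a hN h2 ha b c hb hc A r hinj hr h3
  obtain ⟨g, g', i, i', h4, h5, h6⟩ := hGH N a hN ha (fun g i => b * A g i) ⟨(by
      rintro z z' h
      have h' : b * A z.1 z.2 = b * A z'.1 z'.2 := h
      exact hinj (Nat.eq_of_mul_eq_mul_left hb h')), by
    intro p hp hpN
    have hp2 : p ≠ 2 := fun h => hpN (h ▸ h2)
    by_cases hp3 : p = 3
    · subst hp3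
      by_cases hb3 : 3 ∣ b
      · refine ⟨1, fun g i h => ?_⟩
        have h1 : ((3 : ℕ) : ℤ) ∣ ((b * A g i : ℕ) : ℤ) := by exact_mod_cast hb3.mul_right _
        have h2 : (1 : ℤ) = (1 + ((b * A g i : ℕ) : ℤ)) - ((b * A g i : ℕ) : ℤ) := by ring
        have h4 : ((3 : ℕ) : ℤ) ∣ 1 := by
          rw [h2]
          exact dvd_sub h h1
        omega
      · -- the missing class is `2 c`
        refine ⟨-(b * (2 * c) : ℕ), fun g i h => ?_⟩
        have h1 : ((3 : ℕ) : ℤ) ∣ (b : ℤ) * ((A g i : ℤ) - 2 * c) := by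
          have e : (b : ℤ) * ((A g i : ℤ) - 2 * c) = -((b * (2 * c) : ℕ) : ℤ) + ((b * A g i : ℕ) : ℤ) := by
            push_cast; ring
          rw [e]; exact h
        rcases (Nat.prime_iff_prime_int.1 Nat.prime_three).dvd_or_dvd h1 with h4 | h4
        · exact hb3 (by exact_mod_cast h4)
        · have h5 := h3 g i
          push_cast at h4
          omega
    have hp5 : 5 ≤ p := by
      have h1 := hp.two_le
      have : p ≠ 4 := fun h => by subst h; exact absurd hp (by decide)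
      omega
    by_cases hpK : p ≤ 4 * K
    · obtain ⟨n, hn⟩ := exresA p ((univ : Finset (Fin 4)).image (fun g => (b * r g : ℤ))) (by
        refine card_image_le.trans_lt ?_
        rw [card_univ, Fintype.card_fin]; omega)
      refine ⟨n, fun g i h => hn (b * r g) (mem_image.2 ⟨g, mem_univ _, rfl⟩) ?_⟩
      have h1 : (p : ℤ) ∣ (A g i : ℤ) - r g := by
        have h2 : (p : ℤ) ∣ ((4 * K).factorial : ℕ) := by
          exact_mod_cast (hp.dvd_factorial).2 hpK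
        refine h2.trans ?_
        have h4 : ((r g : ℕ) : ℤ) = (A g i : ℤ) % ((4 * K).factorial : ℕ) := by
          rw [← hr g i]; push_cast; rfl
        rw [h4]
        exact Int.dvd_self_sub_emod
      have h2 : n + (b * r g : ℤ) = (n + ((b * A g i : ℕ) : ℤ)) - ((A g i : ℤ) - r g) * b := by
        push_cast; ring
      rw [h2]
      exact dvd_sub h (h1.mul_right _)
    · obtain ⟨n, hn⟩ := exresA p ((univ : Finset (Fin 4 × Fin K)).image
        (fun z => ((b * A z.1 z.2 : ℕ) : ℤ))) (by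
        refine card_image_le.trans_lt ?_
        rw [card_univ, Fintype.card_prod, Fintype.card_fin, Fintype.card_fin]; omega)
      exact ⟨n, fun g i h => hn _ (mem_image.2 ⟨(g, i), mem_univ _, rfl⟩) h⟩⟩
  have h5' : A g i < A g' i' := Nat.lt_of_mul_lt_mul_left h5
  refine ⟨g, g', i, i', h4, h5', ?_⟩
  rw [Nat.mul_sub]
  exact h6

open Classical in
theorem thirdU {J K : ℕ} (hGH : GH J K) (ε : ℝ) (hε : 0 < ε) : ∃ H₀ : ℕ, ∀ N a : ℕ, 0 < N → 2 ∣ N →
    a.Coprime N → ∀ b : ℕ, 1 ≤ b → ∀ H : ℕ, H₀ ≤ H →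
    (1 / 3 - ε) * (H : ℝ) ≤ (((Icc 1 H).filter (fun k : ℕ => b * k ∈ GapAP J N a)).card : ℝ) := by
  have HC := rows4c hGH
  obtain ⟨W, hW⟩ : ∃ W, W = (4 * K).factorial := ⟨_, rfl⟩
  have hW0 : 0 < W := by rw [hW]; exact Nat.factorial_pos _
  obtain ⟨C₁, E, hC₁, HB⟩ := box_pow (W * K) 4
  obtain ⟨e, he⟩ : ∃ e, e = min ε 1 := ⟨_, rfl⟩
  have he0 : 0 < e := by rw [he]; positivity
  have he1 : e ≤ 1 := by rw [he]; exact min_le_right _ _
  have heε : e ≤ ε := by rw [he]; exact min_le_left _ _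
  obtain ⟨ε₂, hε₂⟩ : ∃ ε₂ : ℝ, ε₂ = (e / 16) ^ 3 / 625 := ⟨_, rfl⟩
  have hε₂0 : 0 < ε₂ := by rw [hε₂]; positivity
  have hε₂1 : ε₂ ≤ 1 := by
    have h1 : (e / 16) ^ 3 ≤ 1 := pow_le_one₀ (by positivity) (by linarith)
    rw [hε₂]; linarith
  obtain ⟨R₁, hR₁⟩ := exists_nat_ge (C₁ / ε₂ ^ E)
  obtain ⟨R₂, hR₂⟩ := exists_nat_ge (16 / e)
  refine ⟨R₁ + R₂ + 10, fun N a hN h2 ha b hb H hCH => ?_⟩
  by_contra hcon
  push Not at hcon
  obtain ⟨B, hBdef⟩ : ∃ B, B = (Icc 1 H).filter (fun k : ℕ => ¬ b * k ∈ GapAP J N a) := ⟨_, rfl⟩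
  have hsum : ((Icc 1 H).filter (fun k : ℕ => b * k ∈ GapAP J N a)).card + B.card = H := by
    rw [hBdef, card_filter_add_card_filter_not, Nat.card_Icc, Nat.add_sub_cancel]
  have hBI : B ⊆ Icc 1 H := by rw [hBdef]; exact filter_subset _ _
  have hsumr : ((((Icc 1 H).filter (fun k : ℕ => b * k ∈ GapAP J N a)).card : ℕ) : ℝ) +
      (B.card : ℝ) = H := by exact_mod_cast hsum
  have hH0 : (0 : ℝ) ≤ H := Nat.cast_nonneg _
  have hBr : (2 / 3 + e) * (H : ℝ) ≤ B.card := by nlinarith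
  have hR1H : C₁ / ε₂ ^ E ≤ (H : ℝ) := hR₁.trans (by exact_mod_cast (by omega : R₁ ≤ H))
  have hR2H : 16 / e ≤ (H : ℝ) := hR₂.trans (by exact_mod_cast (by omega : R₂ ≤ H))
  have heH : 16 ≤ e * H := by
    rw [div_le_iff₀ he0] at hR2H
    linarith
  obtain ⟨R, hR⟩ : ∃ R, R = ⌊e * H / 8⌋₊ := ⟨_, rfl⟩
  have hRu : (R : ℝ) ≤ e * H / 8 := by rw [hR]; exact Nat.floor_le (by positivity)
  have hRl : e * H / 16 ≤ (R : ℝ) := by
    have h1 : e * H / 8 < (R : ℝ) + 1 := by rw [hR]; exact Nat.lt_floor_add_one _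
    linarith
  have hR1 : 1 ≤ R := by
    have h1 : (1 : ℝ) ≤ R := by linarith
    exact_mod_cast h1
  obtain ⟨c, hc, hq'⟩ := quad H R R hR1 B hBI (by
    have h1 : (2 * H + 9 * R + 3 * R + 20 : ℝ) ≤ 3 * B.card := by nlinarith
    exact_mod_cast h1)
  have hcount : ε₂ * ∏ i : Fin 4, (((fun _ : Fin 4 => range (5 * H)) i).card : ℝ) ≤
      (((Fintype.piFinset (fun _ : Fin 4 => range (5 * H))).filter (fun f => PP B c f)).card : ℝ) := by
    have h1 : ∏ i : Fin 4, (((fun _ : Fin 4 => range (5 * H)) i).card : ℝ) = (5 * H) ^ 4 := by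
      simp only [card_range, prod_const, card_univ, Fintype.card_fin]
      push_cast
      ring
    rw [h1]
    have h2 : (H : ℝ) * (QQ H B c).card ≤
      (((Fintype.piFinset (fun _ : Fin 4 => range (5 * H))).filter (fun f => PP B c f)).card : ℝ) := by
      exact_mod_cast emb H c B
    refine le_trans ?_ h2
    have h3 : (R : ℝ) * (R * R) ≤ (QQ H B c).card := by exact_mod_cast hq'
    have h4 : (e * H / 16) ^ 3 ≤ (R : ℝ) ^ 3 := by gcongr
    have h5 : (R : ℝ) ^ 3 = R * (R * R) := by ring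
    have h6 : ε₂ * (5 * (H : ℝ)) ^ 4 = H * (e * H / 16) ^ 3 := by rw [hε₂]; ring
    rw [h6]
    exact mul_le_mul_of_nonneg_left (by linarith) hH0
  obtain ⟨Af, hA1, hA2⟩ := HB ε₂ hε₂0 hε₂1 ℕ (fun _ : Fin 4 => range (5 * H)) (fun i => by
    simp only [card_range]
    push_cast
    linarith) _ (filter_subset _ _) hcount
  have hlt : ∀ g g' : Fin 4, g < g' → ∀ i j, Af g i < Af g' j ∧ Af g' j - Af g i ∈ B := by
    intro g g' hgg i j
    have h1 := (mem_filter.1 (hA2 (Function.update (fun _ => i) g' j))).2.1 g g' hgg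
    simp only [Function.update_self, Function.update_of_ne hgg.ne] at h1
    exact h1
  have hmod : ∀ g i, Af g i % 3 = 0 ∨ Af g i % 3 = c := fun g i =>
    (mem_filter.1 (hA2 (fun _ => i))).2.2 g
  choose em hem r hr using fun g => pig W K hW0 (Af g)
  obtain ⟨A, hA⟩ : ∃ A : Fin 4 → Fin K → ℕ, A = fun g i => Af g (em g i) := ⟨_, rfl⟩
  have hAv : ∀ g i, A g i = Af g (em g i) := fun g i => by rw [hA]
  have hlt' : ∀ g g' : Fin 4, g < g' → ∀ i j, A g i < A g' j ∧ A g' j - A g i ∈ B := by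
    intro g g' hgg i j
    rw [hAv, hAv]
    exact hlt g g' hgg _ _
  have hinjA : Function.Injective (fun z : Fin 4 × Fin K => A z.1 z.2) := by
    rintro ⟨g, i⟩ ⟨g', j⟩ h
    have h' : A g i = A g' j := h
    rcases lt_trichotomy g g' with hg | hg | hg
    · have := (hlt' g g' hg i j).1
      omega
    · subst hg
      rw [hAv, hAv] at h'
      rw [hem g (hA1 g h')]
    · have := (hlt' g' g hg j i).1
      omega
  obtain ⟨g, g', i, j, hne, hltt, hgap⟩ := HC N a hN h2 ha b c hb hc A r hinjA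
    (fun g i => by rw [hAv, ← hW]; exact hr g i) (fun g i => by rw [hAv]; exact hmod _ _)
  rcases lt_trichotomy g g' with hg | hg | hg
  · have h1 := (hlt' g g' hg i j).2
    rw [hBdef, mem_filter] at h1
    exact h1.2 hgap
  · exact hne hg
  · have := (hlt' g' g hg j i).1
    omega

/-- windows -/
theorem windowJ {J K : ℕ} (hK : 1 ≤ K) (hGH : GH J K) : ∀ N l a : ℕ, 0 < l → 0 < N → 2 ∣ N →
    Nat.Coprime a N → ∀ ε : ℝ, 0 < ε → ∃ L : ℕ, ∀ M ≥ L, ∀ u : ℕ, (1 / 3 - ε) * (M : ℝ) ≤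
        ({k : ℕ | u < k ∧ k ≤ u + M ∧ l * k ∈ GapAP J N a}.ncard : ℝ) := by
  classical
  intro N l a hl hN hN2 ha ε hε
  have key : ∃ K' : ℕ, 1 ≤ K' ∧ ∀ H : Fin 4 → Fin K' → ℕ, AdmN (N * l) H →
      ∃ g g' i i', g ≠ g' ∧ H g i < H g' i' ∧
        H g' i' - H g i ∈ {k : ℕ | l * k ∈ GapAP J N a} := by
    refine ⟨K, hK, fun H hadm => ?_⟩
    obtain ⟨hinj, hloc⟩ := hadm
    have hadm' : AdmN N (fun g i => l * H g i) := by
      refine ⟨?_, ?_⟩
      · intro x y hxy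
        exact hinj (Nat.eq_of_mul_eq_mul_left hl hxy)
      · intro p hp hpN
        by_cases hpl : p ∣ l
        · refine ⟨1, fun g i h => ?_⟩
          have h3 : (p : ℤ) ∣ ((l * H g i : ℕ) : ℤ) :=
            Int.natCast_dvd_natCast.2 (Dvd.dvd.mul_right hpl _)
          have h4 : (p : ℤ) ∣ 1 := (Int.dvd_add_left h3).1 h
          have h5 : p ∣ 1 := by exact_mod_cast h4
          exact hp.one_lt.ne' (Nat.dvd_one.1 h5)
        · have hpNl : ¬ p ∣ N * l := fun h => (hp.dvd_mul.1 h).elim hpN hpl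
          obtain ⟨n, hn⟩ := hloc p hp hpNl
          refine ⟨l * n, fun g i h => ?_⟩
          have h3 : (l : ℤ) * n + ((l * H g i : ℕ) : ℤ) = l * (n + H g i) := by
            push_cast
            ring
          rw [h3] at h
          rcases (Nat.prime_iff_prime_int.1 hp).dvd_mul.1 h with h4 | h4
          · exact hpl (by exact_mod_cast h4)
          · exact hn g i h4
    obtain ⟨g, g', i, i', hgg, hlt, hmem⟩ := hGH N a hN ha _ hadm'
    refine ⟨g, g', i, i', hgg, Nat.lt_of_mul_lt_mul_left hlt, ?_⟩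
    have e : l * (H g' i' - H g i) = l * H g' i' - l * H g i := Nat.mul_sub _ _ _
    rw [Set.mem_ofPred_eq, e]
    exact hmem
  obtain ⟨L, hL⟩ := Pool.Agent.W432.UB.main (N * l) {k : ℕ | l * k ∈ GapAP J N a}
    (hN2.mul_right l) key ε hε
  refine ⟨L, fun M hM u => (hL M hM u).trans ?_⟩
  rw [win_eq, Nat.cast_le, ← Set.ncard_coe_finset]
  refine Set.ncard_le_ncard ?_ ((Set.finite_Ioc u (u + M)).subset ?_)
  · intro d hd
    rw [Finset.coe_filter, Set.mem_ofPred_eq, Finset.mem_Ioc] at hd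
    exact ⟨hd.1.1, hd.1.2, hd.2⟩
  · intro d hd
    exact ⟨hd.1, hd.2.1⟩

open Classical in
/-- everything -/
theorem all : ∃ J s : ℕ,
    (∀ ε : ℝ, 0 < ε → ∃ H₀ : ℕ, ∀ N a : ℕ, 0 < N → 2 ∣ N → a.Coprime N → ∀ b : ℕ, 1 ≤ b →
      ∀ H : ℕ, H₀ ≤ H → (1 / 3 - ε) * (H : ℝ) ≤
        (((Icc 1 H).filter (fun k : ℕ => b * k ∈ GapAP J N a)).card : ℝ)) ∧
    (∀ N l a : ℕ, 0 < l → 0 < N → 2 ∣ N → Nat.Coprime a N → ∀ ε : ℝ, 0 < ε → ∃ L : ℕ, ∀ M ≥ L,
      ∀ u : ℕ, (1 / 3 - ε) * (M : ℝ) ≤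
        ({k : ℕ | u < k ∧ k ≤ u + M ∧ l * k ∈ GapAP J N a}.ncard : ℝ)) ∧
    (∀ ε : ℝ, 0 < ε → ∃ n₀ : ℕ, ∀ N a : ℕ, 0 < N → 2 ∣ N → a.Coprime N →
      ∀ A : Finset ℕ, n₀ ≤ A.card → At3 N A → (1 / 3 - ε) * (A.card.choose 2 : ℝ) ≤
        (((A ×ˢ A).filter (fun p => p.1 < p.2 ∧ p.2 - p.1 ∈ GapAP J N a)).card : ℝ)) ∧
    (∀ N a : ℕ, 0 < N → 2 ∣ N → a.Coprime N → ∀ A : Finset ℕ,
      ∃ B ⊆ A, A.card ≤ 3 * (B.card + 1) ^ s ∧ ∀ x ∈ B, ∀ y ∈ B, x < y → y - x ∈ GapAP J N a) := by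
  obtain ⟨K, hK, hGH0⟩ := gap_hit
  have hGH : GH (4 * K) K := hGH0
  obtain ⟨K', hK'⟩ : ∃ K', K' = 4 * (K * (4 * K).factorial) := ⟨_, rfl⟩
  have hK'1 : 1 ≤ K' := by
    have := Nat.factorial_pos (4 * K)
    have : 1 ≤ K * (4 * K).factorial := Nat.mul_pos hK this
    omega
  have h4 : ∀ N a : ℕ, 0 < N → 2 ∣ N → a.Coprime N →
      ∀ A : Fin 4 → Finset ℕ, At3 N {x | ∃ g, x ∈ A g} → (∀ g, K' ≤ (A g).card) →
      ∃ g g', g ≠ g' ∧ ∃ x ∈ A g, ∃ y ∈ A g', x < y ∧ y - x ∈ GapAP (4 * K) N a :=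
    fun N a hN h2 ha A h3 hA => fourSets hGH hN h2 ha A h3 (by rw [← hK']; exact hA)
  refine ⟨4 * K, K' - 1, fun ε hε => thirdU hGH ε hε, windowJ hK hGH, fun ε hε => ?_,
    fun N a hN h2 ha A => finite_sets hK'1 (h4 N a hN h2 ha) A⟩
  obtain ⟨n₀, hn₀⟩ := third K' ε hε
  exact ⟨n₀, fun N a hN h2 ha A hA h3 => hn₀ (GapAP (4 * K) N a) N (h4 N a hN h2 ha) A hA h3⟩

end Pool.Agent.Helper50.AQB
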