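import Mathlib
import Pool.Agent.Helper50.AQ.NarHit

set_option autoImplicit false

/-! A proportion `4 ^ (-k)` of the tuples in every admissible set, along narrow progressions. -/

open Finset Filter

namespace Pool.Agent.Helper50.AQ

open Pool.Agent.X34.E Pool.Agent.W70.HR

/-- the `n + f`, `f ∈ F`, are prime for all terms of long narrow progressions -/
def GoodP (F : Finset ℕ) : Prop := Nar (fun n => ∀ f ∈ F, (n + f).Prime)

theorem GoodP.mono {F F' : Finset ℕ} (h : F' ⊆ F) (hF : GoodP F) : GoodP F' :=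
  Nar.mono hF fun _ hn f hf => hn f (h hf)

open Classical in
/-- in coloured systems -/
theorem goodP_classes (T : ℕ) (hT : 1 ≤ T) : ∃ K : ℕ, 1 ≤ K ∧ ∀ V : Finset ℕ,
    (∀ p : ℕ, p.Prime → ∃ a : ℕ, ∀ v ∈ V, ¬ p ∣ a + v) → Exc GoodP T K V = ∅ := by
  obtain ⟨K, hK, h⟩ := nar_hit T hT
  refine ⟨K, hK, fun V hV => ?_⟩
  rw [Finset.eq_empty_iff_forall_notMem]
  intro H hH
  unfold Exc at hH
  rw [mem_filter] at hH
  obtain ⟨hHV, hinj, hno⟩ := hH
  have hmem : ∀ g i, H g i ∈ V := by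
    intro g i
    have := Fintype.mem_piFinset.1 hHV g
    exact Fintype.mem_piFinset.1 this i
  apply hno
  obtain ⟨E, hE, hN⟩ := h H hinj (fun p hp => by
    obtain ⟨a, ha⟩ := hV p hp
    exact ⟨a, fun g i => ha _ (hmem g i)⟩) 1 0 squarefree_one (fun g i => Nat.coprime_one_right _)
  have hc : ∀ g : Fin T, ∃ i : Fin K, g ∈ E.image Prod.fst → (g, i) ∈ E := by
    intro g
    by_cases hg : g ∈ E.image Prod.fst
    · obtain ⟨x, hx, rfl⟩ := mem_image.1 hg
      exact ⟨x.2, fun _ => hx⟩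
    · exact ⟨⟨0, by omega⟩, fun h => absurd h hg⟩
  choose c hc using hc
  refine ⟨E.image Prod.fst, c, hE, ?_⟩
  refine Nar.mono hN fun n hn f hf => ?_
  obtain ⟨g, hg, rfl⟩ := mem_image.1 hf
  exact (hn.2 (g, c g)).2 (hc g hg)

open Classical in
/-- the proportion of the tuples -/
theorem tuples (k : ℕ) (ε : ℝ) (hε : 0 < ε) : ∃ n₀ : ℕ, ∀ V : Finset ℕ, n₀ ≤ V.card →
    (∀ p : ℕ, p.Prime → ∃ a : ℕ, ∀ v ∈ V, ¬ p ∣ a + v) →
    ((1 / 4 : ℝ) ^ k - ε) * (V.card.choose (k + 1) : ℝ) ≤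
      (((V.powersetCard (k + 1)).filter GoodP).card : ℝ) := by
  have hex : ∀ T : ℕ, ∃ K : ℕ, 1 ≤ K ∧ (1 ≤ T → ∀ V : Finset ℕ,
      (∀ p : ℕ, p.Prime → ∃ a : ℕ, ∀ v ∈ V, ¬ p ∣ a + v) → Exc GoodP T K V = ∅) := by
    intro T
    by_cases hT : 1 ≤ T
    · obtain ⟨K, hK, h⟩ := goodP_classes T hT
      exact ⟨K, hK, fun _ => h⟩
    · exact ⟨1, le_rfl, fun h => absurd h hT⟩
  choose Kf hKf hExc using hex
  obtain ⟨M, ε₁, n₁, hε₁, hsamp⟩ := samp k ε hε Kf hKf
  refine ⟨n₁, fun V hV hadm => ?_⟩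
  have h1 := hsamp V GoodP hV (fun F F' h hF => GoodP.mono h hF) (fun T hT _ => by
    rw [hExc T hT V hadm, card_empty, Nat.cast_zero]
    positivity)
  -- from injective maps to sets
  set Y := (Fintype.piFinset (fun _ : Fin (k + 1) => V)).filter (fun y => Function.Injective y ∧
      GoodP (univ.image y)) with hY
  set Gd := (V.powersetCard (k + 1)).filter GoodP with hGd
  have h2 : Y.card ≤ (k + 1).factorial * Gd.card := by
    have hmaps : ∀ y ∈ Y, univ.image y ∈ Gd := by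
      intro y hy
      rw [hY, mem_filter] at hy
      rw [hGd, mem_filter, mem_powersetCard]
      refine ⟨⟨?_, ?_⟩, hy.2.2⟩
      · intro v hv
        obtain ⟨i, -, rfl⟩ := mem_image.1 hv
        exact Fintype.mem_piFinset.1 hy.1 i
      · rw [card_image_of_injective _ hy.2.1, card_univ, Fintype.card_fin]
    rw [card_eq_sum_card_fiberwise hmaps]
    have h3 : ∀ F ∈ Gd, (Y.filter (fun y => univ.image y = F)).card ≤ (k + 1).factorial := by
      intro F hF
      rw [hGd, mem_filter, mem_powersetCard] at hF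
      have hFc : F.card = k + 1 := hF.1.2
      have h4 : (Y.filter (fun y => univ.image y = F)).card ≤
          (univ : Finset (Fin (k + 1) ↪ F)).card := by
        refine card_le_card_of_surjOn (fun f : Fin (k + 1) ↪ F => fun i => ((f i : F) : ℕ)) ?_
        intro y hy
        rw [mem_coe, mem_filter, hY, mem_filter] at hy
        obtain ⟨⟨-, hyi, -⟩, hyF⟩ := hy
        have hyF' : ∀ i, y i ∈ F := fun i => by
          rw [← hyF]; exact mem_image.2 ⟨i, mem_univ _, rfl⟩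
        refine ⟨⟨fun i => ⟨y i, hyF' i⟩, fun i j hij => ?_⟩, mem_coe.2 (mem_univ _), rfl⟩
        exact hyi (by simpa using hij)
      refine h4.trans (le_of_eq ?_)
      rw [card_univ, Fintype.card_embedding_eq, Fintype.card_coe, Fintype.card_fin, hFc,
        Nat.descFactorial_self]
    calc ∑ F ∈ Gd, (Y.filter (fun y => univ.image y = F)).card ≤ ∑ _F ∈ Gd, (k + 1).factorial :=
          sum_le_sum h3
      _ = (k + 1).factorial * Gd.card := by rw [sum_const, smul_eq_mul, mul_comm]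
  have h3 : ((k + 1).factorial : ℝ) * (V.card.choose (k + 1) : ℝ) ≤ (V.card : ℝ) ^ (k + 1) := by
    have h4 : (k + 1).factorial * V.card.choose (k + 1) ≤ V.card ^ (k + 1) := by
      rw [← Nat.descFactorial_eq_factorial_mul_choose]
      exact Nat.descFactorial_le_pow _ _
    exact_mod_cast h4
  have hf : (0 : ℝ) < ((k + 1).factorial : ℝ) := by exact_mod_cast Nat.factorial_pos _
  have h5 : (Y.card : ℝ) ≤ ((k + 1).factorial : ℝ) * Gd.card := by exact_mod_cast h2
  by_cases hneg : (1 / 4 : ℝ) ^ k - ε ≤ 0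
  · refine le_trans ?_ (Nat.cast_nonneg _)
    exact mul_nonpos_of_nonpos_of_nonneg hneg (Nat.cast_nonneg _)
  · push Not at hneg
    have h6 : ((k + 1).factorial : ℝ) * (((1 / 4 : ℝ) ^ k - ε) * (V.card.choose (k + 1) : ℝ)) ≤
        ((k + 1).factorial : ℝ) * Gd.card := by
      calc ((k + 1).factorial : ℝ) * (((1 / 4 : ℝ) ^ k - ε) * (V.card.choose (k + 1) : ℝ)) =
            ((1 / 4 : ℝ) ^ k - ε) * (((k + 1).factorial : ℝ) * (V.card.choose (k + 1) : ℝ)) := by ring
        _ ≤ ((1 / 4 : ℝ) ^ k - ε) * (V.card : ℝ) ^ (k + 1) := mul_le_mul_of_nonneg_left h3 hneg.le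
        _ ≤ Y.card := h1
        _ ≤ _ := h5
    exact le_of_mul_le_mul_left h6 hf

end Pool.Agent.Helper50.AQ
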